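import Pool.Agent.Helper14.LD.MinF

/-!
# Joins, and the arc property (project LD, MP_409f7f_co)
-/

namespace Pool.Agent.Helper16.LD

open Pool.Agent.Helper17.UF

/-- The number of edges of `Z` at the vertex `v`. -/
def dg (Z : Finset (Sym2 Cube)) (v : Cube) : ℕ := (Z.filter (fun ε => v ∈ ε)).card

theorem even_dg_sd (S T : Finset (Sym2 Cube)) (v : Cube) :
    Even (dg (symmDiff S T) v) ↔ (Even (dg S v) ↔ Even (dg T v)) := by
  classical
  unfold dg
  have h1 : (symmDiff S T).filter (fun e => v ∈ e) =
      symmDiff (S.filter (fun e => v ∈ e)) (T.filter (fun e => v ∈ e)) := by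
    ext e
    simp only [Finset.mem_filter, Finset.mem_symmDiff]
    tauto
  rw [h1]
  set A := S.filter (fun e => v ∈ e)
  set B := T.filter (fun e => v ∈ e)
  have h2 : (symmDiff A B).card = (A \ B).card + (B \ A).card := by
    rw [← Finset.card_union_of_disjoint]
    · rfl
    · rw [Finset.disjoint_left]
      intro a ha hb
      exact (Finset.mem_sdiff.1 hb).2 (Finset.mem_sdiff.1 ha).1
  have h3 := Finset.card_sdiff_add_card_inter A B
  have h4 := Finset.card_sdiff_add_card_inter B A
  rw [Finset.inter_comm] at h4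
  rw [h2, ← h3, ← h4]
  simp only [Nat.even_add]
  tauto

/-- `S` has odd degree exactly at `v` and `v'` (is even if `v = v'`). -/
def Join (S : Finset (Sym2 Cube)) (v v' : Cube) : Prop :=
  ∀ x, Even (dg S x) ↔ (v ≠ v' → x ≠ v ∧ x ≠ v')

theorem Join.sd {S T : Finset (Sym2 Cube)} {v v' : Cube} (hS : Join S v v') (hT : Join T v v') :
    EvenSet (symmDiff S T) := by
  intro x
  have := (even_dg_sd S T x).2 ((hS x).trans (hT x).symm)
  exact this

theorem Join.sd_even {S Z : Finset (Sym2 Cube)} {v v' : Cube} (hS : Join S v v')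
    (hZ : EvenSet Z) : Join (symmDiff Z S) v v' := by
  intro x
  have h1 : Even (dg Z x) := hZ x
  rw [even_dg_sd, hS x]
  tauto

theorem Join.symm {S : Finset (Sym2 Cube)} {v v' : Cube} (hS : Join S v v') : Join S v' v := by
  intro x
  rw [hS x]
  constructor
  · intro h1 h2
    exact (h1 h2.symm).symm
  · intro h1 h2
    exact (h1 h2.symm).symm

/-- Two vertices of a circuit are joined in it. -/
theorem Ckt.exists_join {P : Finset Cube} {Z : Finset (Sym2 Cube)} (hZ : Ckt Z)
    (hZE : Z ⊆ edgeF P) {v v' : Cube} (hv : ∃ ε ∈ Z, v ∈ ε) (hv' : ∃ ε ∈ Z, v' ∈ ε) :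
    ∃ S ⊆ Z, Join S v v' := by
  classical
  have hvV : v ∈ vertF P := by
    obtain ⟨ε, h1, h2⟩ := hv
    exact mem_vertF_of_mem_eg (hZE h1) h2
  have hvV' : v' ∈ vertF P := by
    obtain ⟨ε, h1, h2⟩ := hv'
    exact mem_vertF_of_mem_eg (hZE h1) h2
  -- the edges of the component of v
  let R : Cube → Prop := fun x => ∃ hx : x ∈ vertF P, (eGraph P Z).Reachable ⟨v, hvV⟩ ⟨x, hx⟩
  have hR : ∀ x y, s(x, y) ∈ Z → R x → R y := by
    rintro x y hxy ⟨hx, hr⟩
    have hy : y ∈ vertF P := mem_vertF_of_mem_eg (hZE hxy) (Sym2.mem_mk_right _ _)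
    refine ⟨hy, hr.trans (SimpleGraph.Adj.reachable ?_)⟩
    refine ⟨?_, hxy⟩
    intro h
    exact edgeF_not_diag _ (hZE hxy) (Sym2.mk_isDiag_iff.2 (congrArg Subtype.val h))
  let W : Finset (Sym2 Cube) := Z.filter (fun ε => ∀ x ∈ ε, R x)
  have hWZ : W ⊆ Z := Finset.filter_subset _ _
  have hWm : ∀ ε ∈ Z, ∀ x ∈ ε, R x → ε ∈ W := by
    intro ε hε x hx hRx
    obtain ⟨y, rfl⟩ := Sym2.mem_iff_exists.1 hx
    refine Finset.mem_filter.2 ⟨hε, ?_⟩
    intro z hz
    rw [Sym2.mem_iff] at hz
    rcases hz with rfl | rfl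
    · exact hRx
    · exact hR _ _ hε hRx
  have hWev : EvenSet W := by
    intro x
    by_cases hx : R x
    · have h1 : W.filter (fun ε => x ∈ ε) = Z.filter (fun ε => x ∈ ε) := by
        ext ε
        constructor
        · intro h
          rw [Finset.mem_filter] at h ⊢
          exact ⟨hWZ h.1, h.2⟩
        · intro h
          rw [Finset.mem_filter] at h ⊢
          exact ⟨hWm ε h.1 x h.2 hx, h.2⟩
      rw [h1]
      exact hZ.2.1 x
    · have h1 : W.filter (fun ε => x ∈ ε) = ∅ := by
        rw [Finset.filter_eq_empty_iff]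
        intro ε hε hxε
        exact hx ((Finset.mem_filter.1 hε).2 x hxε)
      rw [h1]
      exact ⟨0, rfl⟩
  have hRv : R v := ⟨hvV, SimpleGraph.Reachable.refl _⟩
  have hWne : W.Nonempty := by
    obtain ⟨ε, h1, h2⟩ := hv
    exact ⟨ε, hWm ε h1 v h2 hRv⟩
  have hWeq := hZ.2.2 W hWZ hWne hWev
  obtain ⟨ε, h1, h2⟩ := hv'
  rw [← hWeq] at h1
  obtain ⟨hvV'', hr⟩ := (Finset.mem_filter.1 h1).2 v' h2
  obtain ⟨p, hp⟩ := hr.exists_isPath
  refine ⟨p.edges.toFinset.image (Sym2.map Subtype.val), ?_, ?_⟩
  · intro e he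
    simp only [Finset.mem_image, List.mem_toFinset] at he
    obtain ⟨f, hf, rfl⟩ := he
    have := p.edges_subset_edgeSet hf
    induction f using Sym2.ind with
    | _ a b =>
      rw [SimpleGraph.mem_edgeSet] at this
      rw [Sym2.map_mk]
      exact this.2
  · intro x
    unfold dg
    by_cases hx : x ∈ vertF P
    · have h3 := hp.isTrail.even_countP_edges_iff (⟨x, hx⟩ : {p // p ∈ vertF P})
      have h4 : ((p.edges.toFinset.image (Sym2.map Subtype.val)).filter (fun ε => x ∈ ε)).card =
          p.edges.countP (fun e => (⟨x, hx⟩ : {p // p ∈ vertF P}) ∈ e) := by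
        have h5 : (p.edges.toFinset.image (Sym2.map Subtype.val)).filter (fun ε => x ∈ ε) =
            (p.edges.toFinset.filter (fun e => (⟨x, hx⟩ : {p // p ∈ vertF P}) ∈ e)).image
              (Sym2.map Subtype.val) := by
          ext e
          simp only [Finset.mem_filter, Finset.mem_image, List.mem_toFinset]
          constructor
          · rintro ⟨⟨f, hf, rfl⟩, hxe⟩
            refine ⟨f, ⟨hf, ?_⟩, rfl⟩
            rw [Sym2.mem_map] at hxe
            obtain ⟨⟨y, hy⟩, hyf, hyx⟩ := hxe
            simp only at hyx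
            subst hyx
            exact hyf
          · rintro ⟨f, ⟨hf, hxf⟩, rfl⟩
            exact ⟨⟨f, hf, rfl⟩, Sym2.mem_map.2 ⟨_, hxf, rfl⟩⟩
        rw [h5, Finset.card_image_of_injective _ (Sym2.map.injective Subtype.val_injective),
          List.countP_eq_length_filter]
        have h6 : (p.edges.toFinset.filter (fun e => (⟨x, hx⟩ : {p // p ∈ vertF P}) ∈ e)) =
            (p.edges.filter (fun e => decide ((⟨x, hx⟩ : {p // p ∈ vertF P}) ∈ e))).toFinset := by
          ext e
          simp
        rw [h6, List.toFinset_card_of_nodup (hp.isTrail.edges_nodup.filter _)]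
      rw [h4, h3]
      simp only [ne_eq, Subtype.mk.injEq]
    · have h4 : ((p.edges.toFinset.image (Sym2.map Subtype.val)).filter
          (fun ε => x ∈ ε)) = ∅ := by
        rw [Finset.filter_eq_empty_iff]
        intro e he hxe
        simp only [Finset.mem_image, List.mem_toFinset] at he
        obtain ⟨f, hf, rfl⟩ := he
        rw [Sym2.mem_map] at hxe
        obtain ⟨⟨y, hy⟩, -, rfl⟩ := hxe
        exact hx hy
      rw [h4, Finset.card_empty]
      refine ⟨fun _ _ => ⟨?_, ?_⟩, fun _ => Even.zero⟩
      · rintro rfl; exact hx hvV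
      · rintro rfl; exact hx hvV'

/-- **Arc property.**  Let `Z` be a circuit in the closed disc that consists of edges of `M` (not
all of the boundary) and at most two edges `a`, `b` with differently coloured ends. A join `S` of
two vertices of `Z` by edges of `M` in the closed disc (not all of the boundary) is a part
of `Z`. -/
theorem IsMinF.join_sub {P : Finset Cube} {M : Finset (Sym2 Cube)} {F : Finset Face}
    (h : IsMinF P M F) (c : Cube → Bool) (hMc : ∀ e ∈ M, (Sym2.map c e).IsDiag)
    {Z : Finset (Sym2 Cube)} (hZE : Z ⊆ edgeF P) (hZ : Ckt Z) (hcl : Cl P F Z)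
    {a b : Sym2 Cube} (hZM : ∀ e ∈ Z, e ∈ M ∨ e = a ∨ e = b)
    (ha : ¬ (Sym2.map c a).IsDiag) (hb : ¬ (Sym2.map c b).IsDiag)
    {c0 : Sym2 Cube} (hc0 : c0 ∈ bdF P F) (hc0Z : c0 ∉ Z)
    {v v' : Cube} (hv : ∃ ε ∈ Z, v ∈ ε) (hv' : ∃ ε ∈ Z, v' ∈ ε)
    {S : Finset (Sym2 Cube)} (hSM : S ⊆ M) (hSE : S ⊆ edgeF P) (hScl : Cl P F S)
    (hc0S : c0 ∉ S) (hS : Join S v v') : S ⊆ Z := by
  classical
  obtain ⟨T, hTZ, hT⟩ := hZ.exists_join hZE hv hv'
  -- a join in Z without bichromatic edges
  obtain ⟨T, hTZ, hT, hTM⟩ : ∃ T ⊆ Z, Join T v v' ∧ T ⊆ M := by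
    have key : ∀ T ⊆ Z, Join T v v' → (a ∈ T ∧ a ∉ M ↔ b ∈ T ∧ b ∉ M) ∨ a = b := by
      intro T hTZ hT
      by_cases hab : a = b
      · exact Or.inr hab
      left
      have h1 : EvenSet (symmDiff T S) := hT.sd hS
      have h2 := h1.bichromatic (fun e he => by
        rw [Finset.mem_symmDiff] at he
        rcases he with he | he
        · exact edgeF_not_diag e (hZE (hTZ he.1))
        · exact edgeF_not_diag e (hSE he.1)) c
      have haM : a ∉ M := fun h3 => ha (hMc a h3)
      have hbM : b ∉ M := fun h3 => hb (hMc b h3)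
      have h3 : (symmDiff T S).filter (fun e => ¬ (Sym2.map c e).IsDiag) =
          T.filter (fun e => e = a ∨ e = b) := by
        ext e
        rw [Finset.mem_filter, Finset.mem_filter, Finset.mem_symmDiff]
        constructor
        · rintro ⟨h4 | h4, h5⟩
          · refine ⟨h4.1, ?_⟩
            rcases hZM e (hTZ h4.1) with h6 | h6
            · exact absurd (hMc e h6) h5
            · exact h6
          · exact absurd (hMc e (hSM h4.1)) h5
        · rintro ⟨h4, rfl | rfl⟩
          · exact ⟨Or.inl ⟨h4, fun h5 => haM (hSM h5)⟩, ha⟩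
          · exact ⟨Or.inl ⟨h4, fun h5 => hbM (hSM h5)⟩, hb⟩
      rw [h3] at h2
      by_contra hn
      have h4 : (T.filter (fun e => e = a ∨ e = b)).card = 1 := by
        rw [Finset.card_eq_one]
        by_cases h8 : a ∈ T
        · have h9 : b ∉ T := fun h => hn ⟨fun _ => ⟨h, hbM⟩, fun _ => ⟨h8, haM⟩⟩
          refine ⟨a, ?_⟩
          ext x
          rw [Finset.mem_filter, Finset.mem_singleton]
          constructor
          · rintro ⟨h10, rfl | rfl⟩
            · rfl
            · exact absurd h10 h9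
          · rintro rfl
            exact ⟨h8, Or.inl rfl⟩
        · have h9 : b ∈ T := by
            by_contra h10
            exact hn ⟨fun h => absurd h.1 h8, fun h => absurd h.1 h10⟩
          refine ⟨b, ?_⟩
          ext x
          rw [Finset.mem_filter, Finset.mem_singleton]
          constructor
          · rintro ⟨h10, rfl | rfl⟩
            · exact absurd h10 h8
            · rfl
          · rintro rfl
            exact ⟨h9, Or.inr rfl⟩
      rw [h4] at h2
      exact absurd h2 (by decide)
    by_cases h1 : a ∈ T ∧ a ∉ M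
    · -- take the complement
      have haM := h1.2
      refine ⟨symmDiff Z T, ?_, hT.sd_even hZ.2.1, ?_⟩
      · intro e he
        rw [Finset.mem_symmDiff] at he
        rcases he with he | he
        · exact he.1
        · exact hTZ he.1
      · intro e he
        rw [Finset.mem_symmDiff] at he
        have he' : e ∈ Z ∧ e ∉ T := by
          rcases he with he | he
          · exact he
          · exact absurd (hTZ he.1) he.2
        rcases hZM e he'.1 with h2 | h2 | h2
        · exact h2
        · rw [h2] at he'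
          exact absurd h1.1 he'.2
        · rcases key T hTZ hT with h3 | h3
          · have := (h3.1 h1).1
            rw [h2] at he'
            exact absurd this he'.2
          · rw [h2, ← h3] at he'
            exact absurd h1.1 he'.2
    · refine ⟨T, hTZ, hT, ?_⟩
      intro e he
      rcases hZM e (hTZ he) with h2 | h2 | h2
      · exact h2
      · by_contra h3
        rw [h2] at he h3
        exact h1 ⟨he, h3⟩
      · by_contra h3
        rw [h2] at he h3
        rcases key T hTZ hT with h4 | h4
        · exact h1 (h4.2 ⟨he, h3⟩)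
        · rw [← h4] at he h3
          exact h1 ⟨he, h3⟩
  have h1 : EvenSet (symmDiff T S) := hT.sd hS
  have h2 : symmDiff T S = ∅ := by
    by_contra h3
    have h4 := h.eq (symmDiff T S) (by
      intro e he
      rw [Finset.mem_symmDiff] at he
      rcases he with he | he
      · exact hTM he.1
      · exact hSM he.1) h1 (Finset.nonempty_iff_ne_empty.2 h3) (by
      intro s hs he
      rw [Finset.mem_symmDiff] at he
      rcases he with he | he
      · exact hcl s hs (hTZ he.1)
      · exact hScl s hs he.1)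
    rw [← h4, Finset.mem_symmDiff] at hc0
    rcases hc0 with h5 | h5
    · exact hc0Z (hTZ h5.1)
    · exact hc0S h5.1
  have h3 : T = S := symmDiff_eq_bot.1 h2
  rw [← h3]
  exact hTZ

end Pool.Agent.Helper16.LD
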