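import Pool.Agent.Helper16.LD.Euler
import Pool.Agent.Helper16.LD.Even

/-!
# Circuits: minimal nonempty even sets of edges (project LD, MP_409f7f_co)
-/

namespace Pool.Agent.Helper16.LD

open Pool.Agent.Helper17.UF

/-- A circuit: a minimal nonempty even set of edges. -/
def Ckt (Z : Finset (Sym2 Cube)) : Prop :=
  Z.Nonempty ∧ EvenSet Z ∧ ∀ W ⊆ Z, W.Nonempty → EvenSet W → W = Z

theorem exists_ckt {Z : Finset (Sym2 Cube)} (hne : Z.Nonempty) (hev : EvenSet Z) :
    ∃ W ⊆ Z, Ckt W := by
  classical
  obtain ⟨W, hW, hmin⟩ := (Z.powerset.filter (fun W => W.Nonempty ∧ EvenSet W)).exists_min_image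
    Finset.card ⟨Z, Finset.mem_filter.2 ⟨Finset.mem_powerset_self Z, hne, hev⟩⟩
  rw [Finset.mem_filter, Finset.mem_powerset] at hW
  refine ⟨W, hW.1, hW.2.1, hW.2.2, ?_⟩
  intro W' hW' hne' hev'
  refine Finset.eq_of_subset_of_card_le hW' (hmin W' ?_)
  rw [Finset.mem_filter, Finset.mem_powerset]
  exact ⟨hW'.trans hW.1, hne', hev'⟩

theorem evenSet_empty : EvenSet ∅ := by
  intro v
  simp

theorem evenSet_bdF {P : Finset Cube} (hman : Man P) (X : Finset Face) : EvenSet (bdF P X) :=
  fun v => even_bdF hman X v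

theorem EvenSet.sdiff {Z W : Finset (Sym2 Cube)} (hZ : EvenSet Z) (hW : EvenSet W)
    (h : W ⊆ Z) : EvenSet (Z \ W) := by
  have h1 : Z \ W = symmDiff Z W := by
    ext e
    rw [Finset.mem_sdiff, Finset.mem_symmDiff]
    constructor
    · intro h2; exact Or.inl h2
    · rintro (h2 | h2)
      · exact h2
      · exact absurd (h h2.1) h2.2
  rw [h1]
  exact hZ.sd hW

/-- The vertices of a circuit have two edges. -/
theorem Ckt.deg {P : Finset Cube} {Z : Finset (Sym2 Cube)} (hZ : Ckt Z) (hZE : Z ⊆ edgeF P)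
    (v : Cube) : (Z.filter (fun e => v ∈ e)).card = 0 ∨ (Z.filter (fun e => v ∈ e)).card = 2 := by
  classical
  obtain ⟨hne, hev, hmin⟩ := hZ
  have hac : ¬ (eGraph P Z).IsAcyclic := by
    intro h
    have := even_forest hZE hev h
    rw [this] at hne
    exact Finset.not_nonempty_empty hne
  unfold SimpleGraph.IsAcyclic at hac
  push Not at hac
  obtain ⟨v0, p, hp⟩ := hac
  let W : Finset (Sym2 Cube) := p.edges.toFinset.image (Sym2.map Subtype.val)
  have hWm : ∀ a b : {p // p ∈ vertF P}, s(a.1, b.1) ∈ W ↔ p.toSubgraph.Adj a b := by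
    intro a b
    rw [SimpleGraph.Walk.adj_toSubgraph_iff_mem_edges]
    simp only [W, Finset.mem_image, List.mem_toFinset]
    constructor
    · rintro ⟨f, hf, he⟩
      have : f = s(a, b) := by
        apply Sym2.map.injective Subtype.val_injective
        rw [he, Sym2.map_mk]
      rw [← this]; exact hf
    · intro h
      exact ⟨s(a, b), h, Sym2.map_mk _ _ _⟩
  have hWZ : W ⊆ Z := by
    intro e he
    simp only [W, Finset.mem_image, List.mem_toFinset] at he
    obtain ⟨f, hf, rfl⟩ := he
    have := p.edges_subset_edgeSet hf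
    induction f using Sym2.ind with
    | _ a b =>
      rw [SimpleGraph.mem_edgeSet] at this
      rw [Sym2.map_mk]
      exact this.2
  have hdeg : ∀ v, (W.filter (fun e => v ∈ e)).card = 0 ∨
      (W.filter (fun e => v ∈ e)).card = 2 := by
    intro v
    by_cases hv : ∃ h : v ∈ vertF P, (⟨v, h⟩ : {p // p ∈ vertF P}) ∈ p.support
    · right
      obtain ⟨hv, hs⟩ := hv
      rw [← hp.ncard_neighborSet_toSubgraph_eq_two hs]
      rw [← Set.ncard_coe_finset]
      symm
      refine Set.ncard_congr (fun w _ => s(v, w.1)) ?_ ?_ ?_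
      · intro w hw
        rw [Finset.mem_coe, Finset.mem_filter]
        exact ⟨(hWm ⟨v, hv⟩ w).2 hw, Sym2.mem_mk_left _ _⟩
      · intro a b ha hb hab
        rw [Sym2.congr_right] at hab
        exact Subtype.ext hab
      · intro e he
        rw [Finset.mem_coe, Finset.mem_filter] at he
        obtain ⟨h1, h2⟩ := he
        obtain ⟨y, rfl⟩ := Sym2.mem_iff_exists.1 h2
        have hy : y ∈ vertF P := mem_vertF_of_mem_eg (hZE (hWZ h1)) (Sym2.mem_mk_right _ _)
        exact ⟨⟨y, hy⟩, (hWm ⟨v, hv⟩ ⟨y, hy⟩).1 h1, rfl⟩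
    · left
      rw [Finset.card_eq_zero, Finset.filter_eq_empty_iff]
      intro e he hve
      apply hv
      obtain ⟨y, rfl⟩ := Sym2.mem_iff_exists.1 hve
      have hv' : v ∈ vertF P := mem_vertF_of_mem_eg (hZE (hWZ he)) (Sym2.mem_mk_left _ _)
      have hy : y ∈ vertF P := mem_vertF_of_mem_eg (hZE (hWZ he)) (Sym2.mem_mk_right _ _)
      refine ⟨hv', ?_⟩
      have := (hWm ⟨v, hv'⟩ ⟨y, hy⟩).1 he
      have := p.toSubgraph.edge_vert this
      rwa [SimpleGraph.Walk.mem_verts_toSubgraph] at this
  have hWev : EvenSet W := by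
    intro v
    rcases hdeg v with h | h <;> rw [h]
    · exact Even.zero
    · exact even_two
  have hWne : W.Nonempty := by
    have h3 := hp.three_le_length
    rw [← SimpleGraph.Walk.length_edges] at h3
    obtain ⟨e, he⟩ := List.exists_mem_of_length_pos (by omega : 0 < p.edges.length)
    exact ⟨Sym2.map Subtype.val e, Finset.mem_image_of_mem _ (List.mem_toFinset.2 he)⟩
  have := hmin W hWZ hWne hWev
  rw [← this]
  exact hdeg v

/-- An even set has an even number of edges with differently coloured ends. -/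
theorem EvenSet.bichromatic {Z : Finset (Sym2 Cube)} (hev : EvenSet Z) (hd : ∀ e ∈ Z, ¬ e.IsDiag)
    (c : Cube → Bool) : Even ((Z.filter (fun e => ¬ (Sym2.map c e).IsDiag)).card) := by
  classical
  let V : Finset Cube := Z.biUnion (fun e => e.toFinset)
  have h1 : Even (∑ v ∈ V.filter (fun v => c v = true), (Z.filter (fun e => v ∈ e)).card) :=
    Finset.even_sum _ (fun v _ => hev v)
  have h2 : ∑ v ∈ V.filter (fun v => c v = true), (Z.filter (fun e => v ∈ e)).card =
      ∑ e ∈ Z, ((V.filter (fun v => c v = true)).filter (fun v => v ∈ e)).card := by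
    simp only [Finset.card_filter]
    rw [Finset.sum_comm]
  rw [h2] at h1
  have h3 : ∀ e ∈ Z, ((V.filter (fun v => c v = true)).filter (fun v => v ∈ e)).card % 2 =
      if (Sym2.map c e).IsDiag then 0 else 1 := by
    intro e he
    have hdg := hd e he
    induction e using Sym2.ind with
    | _ x y =>
      have hxy : x ≠ y := fun h => hdg (Sym2.mk_isDiag_iff.2 h)
      have hx : x ∈ V := Finset.mem_biUnion.2 ⟨_, he, Sym2.mem_toFinset.2 (Sym2.mem_mk_left _ _)⟩
      have hy : y ∈ V := Finset.mem_biUnion.2 ⟨_, he, Sym2.mem_toFinset.2 (Sym2.mem_mk_right _ _)⟩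
      have h4 : (V.filter (fun v => c v = true)).filter (fun v => v ∈ s(x, y)) =
          ({x, y} : Finset Cube).filter (fun v => c v = true) := by
        ext v
        simp only [Finset.mem_filter, Sym2.mem_iff, Finset.mem_insert, Finset.mem_singleton]
        constructor
        · rintro ⟨⟨_, h5⟩, h6⟩; exact ⟨h6, h5⟩
        · rintro ⟨h5, h6⟩
          refine ⟨⟨?_, h6⟩, h5⟩
          rcases h5 with rfl | rfl
          · exact hx
          · exact hy
      have h5 : (Sym2.map c s(x, y)).IsDiag ↔ c x = c y := by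
        rw [Sym2.map_mk]
        exact Sym2.mk_isDiag_iff
      rw [h4, if_congr h5 rfl rfl]
      rw [Finset.filter_insert, Finset.filter_singleton]
      cases hcx : c x <;> cases hcy : c y <;> simp [hxy]
  rw [Finset.even_sum_iff_even_card_odd] at h1
  have h6 : Z.filter (fun e => Odd (((V.filter (fun v => c v = true)).filter
      (fun v => v ∈ e)).card)) = Z.filter (fun e => ¬ (Sym2.map c e).IsDiag) := by
    refine Finset.filter_congr ?_
    intro e he
    rw [Nat.odd_iff, h3 e he]
    split_ifs with h7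
    · exact ⟨fun h => absurd h (by decide), fun h => absurd h7 h⟩
    · exact ⟨fun _ => h7, fun _ => rfl⟩
  rw [← h6]
  exact h1

end Pool.Agent.Helper16.LD
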