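import Pool.Agent.Helper14.LD.MinF

/-!
# The cyclic order of the columns of one component (project LD, MP_409f7f_co)
-/

namespace Pool.Agent.Helper84.LD

open Pool.Agent.Helper17.UF Pool.Agent.Helper16.LD Relation

variable {P : Finset Cube} {σ : Bool} {e : Face → Dir} {c : Cube → Bool}

/-- Two faces of the same column. -/
abbrev SameCol (P : Finset Cube) (σ : Bool) (e : Face → Dir) : Face → Face → Prop :=
  EqvGen (Up P σ e (UU P σ e))

theorem SameCol.isFace {A B : Face} (h : SameCol P σ e A B) : IsFace P A ↔ IsFace P B := by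
  induction h with
  | rel x y h =>
    obtain ⟨⟨h1, -⟩, rfl⟩ := h
    exact ⟨fun _ => isFace_nbr h1, fun _ => h1⟩
  | refl => rfl
  | symm _ _ _ ih => exact ih.symm
  | trans _ _ _ _ _ ih1 ih2 => exact ih1.trans ih2

theorem IsField.exists_XX (H : IsField P σ e c) {A : Face} (hA : IsFace P A) :
    ∃ B ∈ XX P σ e c, SameCol P σ e A B := by
  obtain ⟨M, -, hb⟩ := H.exists_bot
  obtain ⟨B, hB, hBc, hAB⟩ := hb _ A hA rfl
  obtain ⟨D, hD, hBD⟩ := H.exists_out _ B hB rfl (H.botE B hB hBc)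
  exact ⟨D, hD, hAB.trans _ _ _ hBD⟩

theorem IsField.uniq_XX (H : IsField P σ e c) {A B : Face} (hA : A ∈ XX P σ e c)
    (hB : B ∈ XX P σ e c) (hAB : SameCol P σ e A B) : A = B := by
  rcases eqvGen_comparable up_func H.up_inj hAB with h | h
  · rcases H.white_up h hA.1 with h1 | ⟨h1, -⟩
    · exact h1
    · exact absurd ((h1 hA.2.2).symm.trans hB.2.1) (by decide)
  · rcases H.white_up h hB.1 with h1 | ⟨h1, -⟩
    · exact h1.symm
    · exact absurd ((h1 hB.2.2).symm.trans hA.2.1) (by decide)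

theorem IsField.uniq_in (H : IsField P σ e c) {A B : Face} (hA : A ∈ XX P σ e c)
    (hB : B ∈ XX P σ e c) (hAB : SameCol P σ e (nb P σ e A Hd.E) (nb P σ e B Hd.E)) :
    A = B := by
  have hcA := H.cmpE hA.1 hA.2.1 hA.2.2
  have hcB := H.cmpE hB.1 hB.2.1 hB.2.2
  obtain ⟨a1, a2⟩ := H.east hA.1 hcA
  obtain ⟨b1, b2⟩ := H.east hB.1 hcB
  have hFA : IsFace P (nb P σ e A Hd.E) := isFace_nbr hA.1
  have hFB : IsFace P (nb P σ e B Hd.E) := isFace_nbr hB.1
  have heq : nb P σ e A Hd.E = nb P σ e B Hd.E := by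
    rcases eqvGen_comparable up_func H.up_inj hAB with h | h
    · rcases H.white_up h hFA with h1 | ⟨-, h1⟩
      · exact h1
      · rw [a2, b1] at h1
        exact absurd ((h1 hA.2.2).symm.trans hB.2.1) (by decide)
    · rcases H.white_up h hFB with h1 | ⟨-, h1⟩
      · exact h1.symm
      · rw [b2, a1] at h1
        exact absurd ((h1 hB.2.2).symm.trans hA.2.1) (by decide)
  have e1 := (Cmp.back hA.1 (H.perp A hA.1) hcA).2
  have e2 := (Cmp.back hB.1 (H.perp B hB.1) hcB).2
  rw [heq] at e1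
  exact e1.symm.trans e2

open Classical in
/-- The face of the column of `A` which the curve leaves through the east side. -/
noncomputable def xx (P : Finset Cube) (σ : Bool) (e : Face → Dir) (c : Cube → Bool)
    (A : Face) : Face :=
  if h : ∃ B ∈ XX P σ e c, SameCol P σ e A B then h.choose else A

theorem IsField.xx_spec (H : IsField P σ e c) {A : Face} (hA : IsFace P A) :
    xx P σ e c A ∈ XX P σ e c ∧ SameCol P σ e A (xx P σ e c A) := by
  have h := H.exists_XX hA
  unfold xx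
  rw [dif_pos h]
  exact h.choose_spec

theorem IsField.xx_eq (H : IsField P σ e c) {A B : Face} (hB : B ∈ XX P σ e c)
    (hAB : SameCol P σ e A B) : xx P σ e c A = B := by
  have hA : IsFace P A := hAB.isFace.2 hB.1
  obtain ⟨h1, h2⟩ := H.xx_spec hA
  exact H.uniq_XX h1 hB (h2.symm.trans _ _ _ hAB)

/-- The next column of the curve. -/
noncomputable def nxt (P : Finset Cube) (σ : Bool) (e : Face → Dir) (c : Cube → Bool)
    (A : Face) : Face := xx P σ e c (nb P σ e A Hd.E)

theorem IsField.nxt_spec (H : IsField P σ e c) {A : Face} (hA : A ∈ XX P σ e c) :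
    nxt P σ e c A ∈ XX P σ e c ∧ SameCol P σ e (nb P σ e A Hd.E) (nxt P σ e c A) :=
  H.xx_spec (isFace_nbr hA.1)

theorem IsField.nxt_inj (H : IsField P σ e c) {A B : Face} (hA : A ∈ XX P σ e c)
    (hB : B ∈ XX P σ e c) (h : nxt P σ e c A = nxt P σ e c B) : A = B := by
  refine H.uniq_in hA hB ?_
  have h1 := (H.nxt_spec hA).2
  rw [h] at h1
  exact h1.trans _ _ _ ((H.nxt_spec hB).2.symm)

theorem IsField.iter_mem (H : IsField P σ e c) {A : Face} (hA : A ∈ XX P σ e c) (n : ℕ) :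
    (nxt P σ e c)^[n] A ∈ XX P σ e c := by
  induction n with
  | zero => exact hA
  | succ n ih => rw [Function.iterate_succ_apply']; exact (H.nxt_spec ih).1

theorem IsField.iter_inj (H : IsField P σ e c) {A B : Face} (hA : A ∈ XX P σ e c)
    (hB : B ∈ XX P σ e c) (n : ℕ) (h : (nxt P σ e c)^[n] A = (nxt P σ e c)^[n] B) : A = B := by
  induction n with
  | zero => exact h
  | succ n ih =>
    rw [Function.iterate_succ_apply', Function.iterate_succ_apply'] at h
    exact ih (H.nxt_inj (H.iter_mem hA n) (H.iter_mem hB n) h)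

theorem finite_XX (P : Finset Cube) (σ : Bool) (e : Face → Dir) (c : Cube → Bool) :
    (XX P σ e c).Finite := (finite_faces P).subset (fun _ h => h.1)

/-- The number of columns of the component of `A`. -/
noncomputable def per (P : Finset Cube) (σ : Bool) (e : Face → Dir) (c : Cube → Bool)
    (A : Face) : ℕ := Function.minimalPeriod (nxt P σ e c) A

theorem IsField.per_pos (H : IsField P σ e c) {A : Face} (hA : A ∈ XX P σ e c) :
    0 < per P σ e c A := by
  apply Function.minimalPeriod_pos_of_mem_periodicPts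
  have hfin := finite_XX P σ e c
  obtain ⟨i, -, j, -, hij, heq⟩ := Set.infinite_univ.exists_ne_map_eq_of_mapsTo
    (f := fun n : ℕ => (nxt P σ e c)^[n] A) (t := XX P σ e c)
    (fun n _ => H.iter_mem hA n) hfin
  wlog hlt : i < j generalizing i j
  · exact this j i hij.symm heq.symm (lt_of_le_of_ne (not_lt.1 hlt) hij.symm)
  obtain ⟨d, rfl⟩ := Nat.exists_eq_add_of_lt hlt
  refine ⟨d + 1, Nat.succ_pos _, ?_⟩
  have h1 : (nxt P σ e c)^[i] A = (nxt P σ e c)^[i] ((nxt P σ e c)^[d + 1] A) := by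
    rw [← Function.iterate_add_apply]
    exact heq
  exact (H.iter_inj hA (H.iter_mem hA _) i h1).symm

theorem iter_per (A : Face) : (nxt P σ e c)^[per P σ e c A] A = A :=
  Function.iterate_minimalPeriod

theorem IsField.iter_ne (H : IsField P σ e c) {A : Face} (hA : A ∈ XX P σ e c) {i j : ℕ}
    (hi : i < per P σ e c A) (hj : j < per P σ e c A)
    (h : (nxt P σ e c)^[i] A = (nxt P σ e c)^[j] A) : i = j := by
  by_contra hne
  wlog hlt : i < j generalizing i j
  · exact this hj hi h.symm (fun h => hne h.symm) (lt_of_le_of_ne (not_lt.1 hlt) (Ne.symm hne))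
  obtain ⟨d, rfl⟩ := Nat.exists_eq_add_of_lt hlt
  have h1 : (nxt P σ e c)^[i] A = (nxt P σ e c)^[i] ((nxt P σ e c)^[d + 1] A) := by
    rw [← Function.iterate_add_apply]
    exact h
  have h2 := (H.iter_inj hA (H.iter_mem hA _) i h1).symm
  have h3 : per P σ e c A ≤ d + 1 := Function.IsPeriodicPt.minimalPeriod_le (Nat.succ_pos _) h2
  omega

open Classical in
/-- The faces of the columns with the numbers `j + 1, ..., per - 1`, counted from the column
of `A` (number 0). -/
noncomputable def colsF (P : Finset Cube) (σ : Bool) (e : Face → Dir) (c : Cube → Bool)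
    (A : Face) (j : ℕ) : Finset Face :=
  (faceF P).filter (fun B => ∃ i, j < i ∧ i < per P σ e c A ∧
    SameCol P σ e ((nxt P σ e c)^[i] A) B)

open Classical in
/-- The faces of the column of `A`. -/
noncomputable def colF (P : Finset Cube) (σ : Bool) (e : Face → Dir) (A : Face) : Finset Face :=
  (faceF P).filter (fun B => SameCol P σ e A B)

theorem mem_colF {A B : Face} : B ∈ colF P σ e A ↔ IsFace P B ∧ SameCol P σ e A B := by
  classical
  unfold colF
  rw [Finset.mem_filter, mem_faceF]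

theorem mem_colsF {A B : Face} {j : ℕ} : B ∈ colsF P σ e c A j ↔
    IsFace P B ∧ ∃ i, j < i ∧ i < per P σ e c A ∧ SameCol P σ e ((nxt P σ e c)^[i] A) B := by
  classical
  unfold colsF
  rw [Finset.mem_filter, mem_faceF]

/-- A set of faces that is a union of columns. -/
def Sat (P : Finset Cube) (σ : Bool) (e : Face → Dir) (K : Finset Face) : Prop :=
  K ⊆ faceF P ∧ ∀ A ∈ K, ∀ B, SameCol P σ e A B → B ∈ K

theorem sat_colF (A : Face) : Sat P σ e (colF P σ e A) := by
  classical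
  refine ⟨fun B hB => mem_faceF.2 (mem_colF.1 hB).1, ?_⟩
  intro B hB D hBD
  rw [mem_colF] at hB ⊢
  exact ⟨hBD.isFace.1 hB.1, hB.2.trans _ _ _ hBD⟩

theorem sat_colsF (A : Face) (j : ℕ) : Sat P σ e (colsF P σ e c A j) := by
  refine ⟨fun B hB => mem_faceF.2 (mem_colsF.1 hB).1, ?_⟩
  intro B hB D hBD
  rw [mem_colsF] at hB ⊢
  obtain ⟨h1, i, h2, h3, h4⟩ := hB
  exact ⟨hBD.isFace.1 h1, i, h2, h3, h4.trans _ _ _ hBD⟩

/-- The boundary edges of a union of columns are cut edges and crossing edges. -/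
theorem IsField.bd_sat (H : IsField P σ e c) (hman : Man P) {K : Finset Face}
    (hK : Sat P σ e K) {ε : Sym2 Cube} (hε : ε ∈ bdF P K) :
    ε ∈ cutF P σ e c ∨ ∃ A ∈ XX P σ e c, ε = edg σ e A Hd.E ∧ ¬ (A ∈ K ↔ nb P σ e A Hd.E ∈ K) := by
  obtain ⟨s, hs, rfl⟩ := mem_edgeF.1 (bdF_subset _ hε)
  rw [mem_bdF hman _ hs] at hε
  obtain ⟨A, t⟩ := s
  obtain ⟨h1, h2⟩ := mem_sideF.1 hs
  simp only at h1 h2 hε
  obtain ⟨h, rfl⟩ := exists_hd σ _ _ _ (H.perp A h1) h2
  have h3 : (nu P (A, dirH σ A.2 (e A) h)).1 = nb P σ e A h := rfl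
  have h4 : eg A (dirH σ A.2 (e A) h) = edg σ e A h := eg_eq_edg (H.perp A h1) h
  rw [h3] at hε
  simp only
  rw [h4]
  by_cases hg : Gl P σ e c A h
  · right
    obtain ⟨k0, k1⟩ := H.gl_nb h1 hg
    cases h with
    | N =>
      exfalso
      have h5 : SameCol P σ e A (nb P σ e A Hd.N) := EqvGen.rel _ _ ⟨⟨h1, hg⟩, rfl⟩
      exact hε ⟨fun h => hK.2 _ h _ h5, fun h => hK.2 _ h _ h5.symm⟩
    | S =>
      exfalso
      obtain ⟨k2, k3⟩ := Cmp.back h1 (H.perp A h1) k0
      have h5 : SameCol P σ e (nb P σ e A Hd.S) A := EqvGen.rel _ _ ⟨⟨isFace_nbr h1, k2⟩, k3⟩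
      exact hε ⟨fun h => hK.2 _ h _ h5.symm, fun h => hK.2 _ h _ h5⟩
    | E => exact ⟨A, ⟨h1, hg.1, hg.2⟩, rfl, hε⟩
    | W =>
      obtain ⟨k2, k3⟩ := Cmp.back h1 (H.perp A h1) k0
      simp only [Hd.opp] at k1 k2 k3
      refine ⟨nb P σ e A Hd.W, ⟨isFace_nbr h1, k1.1, k1.2⟩, ?_, ?_⟩
      · obtain ⟨s1, s2⟩ := side_corners (P := P) (σ := σ) (e := e) (A := A) (h := Hd.W)
          (k := Hd.E) (H.perp A h1) (H.perp _ (isFace_nbr h1)) k0
        unfold edg
        simp only [Hd.left, Hd.opp] at s1 s2 ⊢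
        rw [s1, s2, Sym2.eq_swap]
      · rw [k3]
        exact fun h => hε h.symm
  · left
    rw [H.mem_cutF]
    exact ⟨A, h, h1, hg, rfl⟩

/-- The crossing edges are bichromatic. -/
theorem not_diag_XX {A : Face} (hA : A ∈ XX P σ e c) :
    ¬ (Sym2.map c (edg σ e A Hd.E)).IsDiag := by
  unfold edg
  rw [Sym2.map_mk, Sym2.mk_isDiag_iff]
  simp only [Hd.left, Hd.opp]
  rw [cr_comm σ e A Hd.E Hd.N, cr_comm σ e A Hd.E Hd.S, hA.2.1, hA.2.2]
  decide

/-- The cut edges are monochromatic. -/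
theorem IsField.diag_cutF (H : IsField P σ e c) {ε : Sym2 Cube} (hε : ε ∈ cutF P σ e c) :
    (Sym2.map c ε).IsDiag := by
  rw [H.mem_cutF] at hε
  obtain ⟨A, h, hA, hg, rfl⟩ := hε
  unfold edg
  rw [Sym2.map_mk, Sym2.mk_isDiag_iff]
  cases h with
  | N =>
    simp only [Hd.left, Hd.opp]
    rw [H.topW A hA hg, H.topE A hA hg]
  | S =>
    simp only [Hd.left, Hd.opp]
    rw [H.botE A hA hg, H.botW A hA hg]
  | E =>
    simp only [Hd.left, Hd.opp]
    rw [cr_comm σ e A Hd.E Hd.N, cr_comm σ e A Hd.E Hd.S]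
    have hm := H.monoE A hA
    have hg' : ¬ (c (cr σ e A Hd.S Hd.E) = false ∧ c (cr σ e A Hd.N Hd.E) = true) := hg
    cases h1 : c (cr σ e A Hd.S Hd.E) <;> cases h2 : c (cr σ e A Hd.N Hd.E) <;>
      simp_all
  | W =>
    simp only [Hd.left, Hd.opp]
    rw [cr_comm σ e A Hd.W Hd.N, cr_comm σ e A Hd.W Hd.S]
    have hm := H.monoW A hA
    have hg' : ¬ (c (cr σ e A Hd.S Hd.W) = false ∧ c (cr σ e A Hd.N Hd.W) = true) := hg
    cases h1 : c (cr σ e A Hd.S Hd.W) <;> cases h2 : c (cr σ e A Hd.N Hd.W) <;>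
      simp_all

end Pool.Agent.Helper84.LD
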