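import Pool.Agent.Helper14.LD.Cols

/-!
# The curves between the columns of a smallest component (project LD, MP_409f7f_co)
-/

namespace Pool.Agent.Helper84.LD

open Pool.Agent.Helper17.UF Pool.Agent.Helper16.LD Relation

variable {P : Finset Cube} {σ : Bool} {e : Face → Dir} {c : Cube → Bool}

/-- Cut edges are not glued. -/
theorem IsField.not_gl (H : IsField P σ e c) (hman : Man P) {A : Face} {h : Hd}
    (hA : IsFace P A) (hε : edg σ e A h ∈ cutF P σ e c) : ¬ Gl P σ e c A h := by
  classical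
  intro hg
  have hp := perp_dirH σ _ _ (H.perp A hA) h
  have hs : (A, dA σ e A h) ∈ sideF P := mem_sideF.2 ⟨hA, hp⟩
  rw [← eg_eq_edg (H.perp A hA) h] at hε
  unfold cutF ngF at hε
  obtain ⟨s, hs', he⟩ := Finset.mem_image.1 hε
  rw [Finset.mem_filter] at hs'
  have h1 : GlS P σ e c (A, dA σ e A h) := ⟨h, rfl, hg⟩
  rcases (eg_fiber hman hs hs'.1).1 he with h2 | h2
  · rw [h2] at hs'
    exact hs'.2 h1
  · rw [h2] at hs'
    exact hs'.2 ((H.glS_nu_iff hs).2 h1)

/-- A glued side of a face of the disc leads to the disc. -/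
theorem IsField.glued_minF (H : IsField P σ e c) (hman : Man P) {F : Finset Face}
    (hF : IsMinF P (cutF P σ e c) F) {A : Face} {h : Hd} (hA : IsFace P A)
    (hg : Gl P σ e c A h) : A ∈ F ↔ nb P σ e A h ∈ F := by
  have hp := perp_dirH σ _ _ (H.perp A hA) h
  have hs : (A, dA σ e A h) ∈ sideF P := mem_sideF.2 ⟨hA, hp⟩
  by_contra hne
  have h1 : eg A (dA σ e A h) ∈ bdF P F := (mem_bdF hman F hs).2 hne
  have h2 := hF.bd h1
  rw [eg_eq_edg (H.perp A hA) h] at h2
  exact H.not_gl hman hA h2 hg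

theorem IsField.sat_minF (H : IsField P σ e c) (hman : Man P) {F : Finset Face}
    (hF : IsMinF P (cutF P σ e c) F) : Sat P σ e F := by
  have key : ∀ A B, SameCol P σ e A B → (A ∈ F ↔ B ∈ F) := by
    intro A B h
    induction h with
    | rel x y h =>
      obtain ⟨⟨h1, h2⟩, rfl⟩ := h
      exact H.glued_minF hman hF (h := Hd.N) h1 h2
    | refl => rfl
    | symm _ _ _ ih => exact ih.symm
    | trans _ _ _ _ _ ih1 ih2 => exact ih1.trans ih2
  exact ⟨hF.sub, fun A hA B hAB => (key A B hAB).1 hA⟩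

theorem IsField.iter_minF (H : IsField P σ e c) (hman : Man P) {F : Finset Face}
    (hF : IsMinF P (cutF P σ e c) F) {A : Face} (hA : A ∈ XX P σ e c) (hAF : A ∈ F) (n : ℕ) :
    (nxt P σ e c)^[n] A ∈ F := by
  induction n with
  | zero => exact hAF
  | succ n ih =>
    rw [Function.iterate_succ_apply']
    have h1 := H.iter_mem hA n
    have h2 := (H.glued_minF hman hF (h := Hd.E) h1.1 ⟨h1.2.1, h1.2.2⟩).1 ih
    exact (H.sat_minF hman hF).2 _ h2 _ (H.nxt_spec h1).2

theorem nb_XX (H : IsField P σ e c) {A : Face} (hA : A ∈ XX P σ e c) (n : ℕ) :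
    SameCol P σ e ((nxt P σ e c)^[n + 1] A) (nb P σ e ((nxt P σ e c)^[n] A) Hd.E) := by
  rw [Function.iterate_succ_apply']
  exact (H.nxt_spec (H.iter_mem hA n)).2.symm

/-- The columns of the disc. -/
theorem IsField.minF_eq (H : IsField P σ e c) (hman : Man P) (hsurf : SurfConn P)
    {F : Finset Face} (hF : IsMinF P (cutF P σ e c) F) {A : Face} (hA : A ∈ XX P σ e c)
    (hAF : A ∈ F) : colF P σ e A ∪ colsF P σ e c A 0 = F := by
  have hper := H.per_pos hA
  have hsat := H.sat_minF hman hF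
  have hmem : ∀ B, B ∈ colF P σ e A ∪ colsF P σ e c A 0 ↔
      IsFace P B ∧ ∃ i, i < per P σ e c A ∧ SameCol P σ e ((nxt P σ e c)^[i] A) B := by
    intro B
    rw [Finset.mem_union, mem_colF, mem_colsF]
    constructor
    · rintro (⟨h1, h2⟩ | ⟨h1, i, h2, h3, h4⟩)
      · exact ⟨h1, 0, hper, h2⟩
      · exact ⟨h1, i, h3, h4⟩
    · rintro ⟨h1, i, h3, h4⟩
      rcases Nat.eq_zero_or_pos i with rfl | h5
      · exact Or.inl ⟨h1, h4⟩
      · exact Or.inr ⟨h1, i, h5, h3, h4⟩
  have hS : Sat P σ e (colF P σ e A ∪ colsF P σ e c A 0) := by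
    refine ⟨Finset.union_subset (sat_colF A).1 (sat_colsF A 0).1, ?_⟩
    intro B hB D hBD
    rw [hmem] at hB ⊢
    obtain ⟨h1, i, h3, h4⟩ := hB
    exact ⟨hBD.isFace.1 h1, i, h3, h4.trans _ _ _ hBD⟩
  have hall : ∀ n, (nxt P σ e c)^[n] A ∈ colF P σ e A ∪ colsF P σ e c A 0 := by
    intro n
    rw [hmem]
    refine ⟨(H.iter_mem hA n).1, n % per P σ e c A, Nat.mod_lt _ hper, ?_⟩
    have h1 : (nxt P σ e c)^[n % per P σ e c A] A = (nxt P σ e c)^[n] A := by
      unfold per
      rw [Function.iterate_mod_minimalPeriod_eq]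
    rw [h1]
    exact EqvGen.refl _
  refine hF.eq_of_sub hman hsurf ?_ ⟨A, ?_⟩ ?_
  · intro B hB
    rw [hmem] at hB
    obtain ⟨h1, i, h3, h4⟩ := hB
    exact hsat.2 _ (H.iter_minF hman hF hA hAF i) _ h4
  · exact hall 0
  · intro ε hε
    rcases H.bd_sat hman hS hε with h1 | ⟨B, h1, h2, h3⟩
    · exact h1
    · exfalso
      apply h3
      constructor
      · intro h4
        rw [hmem] at h4
        obtain ⟨h5, i, h6, h7⟩ := h4
        have h8 : (nxt P σ e c)^[i] A = B := H.uniq_XX (H.iter_mem hA i) h1 h7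
        refine hS.2 _ (hall (i + 1)) _ ?_
        rw [← h8]
        exact nb_XX H hA i
      · intro h4
        rw [hmem] at h4
        obtain ⟨h5, i, h6, h7⟩ := h4
        have h8 : ∃ n, (nxt P σ e c)^[n] A = B := by
          rcases Nat.eq_zero_or_pos i with rfl | h9
          · refine ⟨per P σ e c A - 1, ?_⟩
            refine H.nxt_inj (H.iter_mem hA _) h1 ?_
            rw [← Function.iterate_succ_apply' (nxt P σ e c)]
            have h10 : (per P σ e c A - 1).succ = per P σ e c A := by omega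
            rw [h10, iter_per]
            exact (H.xx_eq hA h7.symm).symm
          · refine ⟨i - 1, ?_⟩
            refine H.nxt_inj (H.iter_mem hA _) h1 ?_
            rw [← Function.iterate_succ_apply' (nxt P σ e c)]
            have h10 : (i - 1).succ = i := by omega
            rw [h10]
            exact (H.xx_eq (H.iter_mem hA i) h7.symm).symm
        obtain ⟨n, rfl⟩ := h8
        exact hall n

theorem IsField.colsF_sub (H : IsField P σ e c) (hman : Man P) {F : Finset Face}
    (hF : IsMinF P (cutF P σ e c) F) {A : Face} (hA : A ∈ XX P σ e c) (hAF : A ∈ F) (j : ℕ) :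
    colsF P σ e c A j ⊆ F := by
  intro B hB
  rw [mem_colsF] at hB
  obtain ⟨h1, i, h2, h3, h4⟩ := hB
  exact (H.sat_minF hman hF).2 _ (H.iter_minF hman hF hA hAF i) _ h4

theorem IsField.colF_sub (H : IsField P σ e c) (hman : Man P) {F : Finset Face}
    (hF : IsMinF P (cutF P σ e c) F) {A : Face} (hA : A ∈ XX P σ e c) (hAF : A ∈ F) (i : ℕ) :
    colF P σ e ((nxt P σ e c)^[i] A) ⊆ F := by
  intro B hB
  rw [mem_colF] at hB
  exact (H.sat_minF hman hF).2 _ (H.iter_minF hman hF hA hAF i) _ hB.2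

/-- Different columns have different numbers. -/
theorem IsField.num_inj (H : IsField P σ e c) {A B : Face} (hA : A ∈ XX P σ e c) {i j : ℕ}
    (hi : i < per P σ e c A) (hj : j < per P σ e c A)
    (h1 : SameCol P σ e ((nxt P σ e c)^[i] A) B) (h2 : SameCol P σ e ((nxt P σ e c)^[j] A) B) :
    i = j :=
  H.iter_ne hA hi hj (H.uniq_XX (H.iter_mem hA i) (H.iter_mem hA j) (h1.trans _ _ _ h2.symm))

/-- The number of the column before. -/
theorem IsField.num_prev (H : IsField P σ e c) {A B : Face} (hA : A ∈ XX P σ e c) {i : ℕ}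
    (hi : 0 < i) (hB : B ∈ XX P σ e c)
    (h : SameCol P σ e ((nxt P σ e c)^[i] A) (nb P σ e B Hd.E)) :
    (nxt P σ e c)^[i - 1] A = B := by
  refine H.nxt_inj (H.iter_mem hA _) hB ?_
  rw [← Function.iterate_succ_apply' (nxt P σ e c)]
  have h10 : (i - 1).succ = i := by omega
  rw [h10]
  exact (H.xx_eq (H.iter_mem hA i) h.symm).symm

/-- The edges of the curve number `j`. -/
theorem IsField.mem_cur (H : IsField P σ e c) (hman : Man P) {A : Face}
    (hA : A ∈ XX P σ e c) {j : ℕ} {ε : Sym2 Cube} (hε : ε ∈ bdF P (colsF P σ e c A j)) :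
    ε ∈ cutF P σ e c ∨ ε = edg σ e ((nxt P σ e c)^[j] A) Hd.E ∨
      ε = edg σ e ((nxt P σ e c)^[per P σ e c A - 1] A) Hd.E := by
  have hper := H.per_pos hA
  rcases H.bd_sat hman (sat_colsF A j) hε with h1 | ⟨B, h1, h2, h3⟩
  · exact Or.inl h1
  · right
    rw [mem_colsF, mem_colsF] at h3
    by_cases h4 : ∃ i, j < i ∧ i < per P σ e c A ∧ SameCol P σ e ((nxt P σ e c)^[i] A) B
    · right
      obtain ⟨i, h5, h6, h7⟩ := h4
      have h8 : (nxt P σ e c)^[i] A = B := H.uniq_XX (H.iter_mem hA i) h1 h7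
      have h9 : i = per P σ e c A - 1 := by
        by_contra h10
        apply h3
        refine ⟨fun _ => ⟨isFace_nbr h1.1, i + 1, by omega, by omega, ?_⟩,
          fun _ => ⟨h1.1, i, h5, h6, h7⟩⟩
        rw [← h8]
        exact nb_XX H hA i
      rw [h2, ← h8, h9]
    · left
      have h5 : ∃ i, j < i ∧ i < per P σ e c A ∧
          SameCol P σ e ((nxt P σ e c)^[i] A) (nb P σ e B Hd.E) := by
        by_contra h6
        apply h3
        constructor
        · rintro ⟨-, h7⟩
          exact absurd h7 h4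
        · rintro ⟨-, h7⟩
          exact absurd h7 h6
      obtain ⟨i, h6, h7, h8⟩ := h5
      have h9 := H.num_prev hA (by omega) h1 h8
      have h10 : i - 1 = j := by
        by_contra h11
        apply h4
        refine ⟨i - 1, by omega, by omega, ?_⟩
        rw [h9]
        exact EqvGen.refl _
      rw [h2, ← h9, h10]

/-- The edges of the boundary of a column. -/
theorem IsField.mem_bdcol (H : IsField P σ e c) (hman : Man P) {A : Face}
    (hA : A ∈ XX P σ e c) {i : ℕ} (hi : 0 < i) {ε : Sym2 Cube}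
    (hε : ε ∈ bdF P (colF P σ e ((nxt P σ e c)^[i] A))) :
    ε ∈ cutF P σ e c ∨ ε = edg σ e ((nxt P σ e c)^[i] A) Hd.E ∨
      ε = edg σ e ((nxt P σ e c)^[i - 1] A) Hd.E := by
  rcases H.bd_sat hman (sat_colF _) hε with h1 | ⟨B, h1, h2, h3⟩
  · exact Or.inl h1
  · right
    rw [mem_colF, mem_colF] at h3
    by_cases h4 : SameCol P σ e ((nxt P σ e c)^[i] A) B
    · left
      have h8 : (nxt P σ e c)^[i] A = B := H.uniq_XX (H.iter_mem hA i) h1 h4
      rw [h2, h8]
    · right
      have h5 : SameCol P σ e ((nxt P σ e c)^[i] A) (nb P σ e B Hd.E) := by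
        by_contra h6
        apply h3
        exact ⟨fun h7 => absurd h7.2 h4, fun h7 => absurd h7.2 h6⟩
      rw [h2, H.num_prev hA hi h1 h5]

theorem IsField.disj_cols (H : IsField P σ e c) {A : Face} (hA : A ∈ XX P σ e c) {i j : ℕ}
    (hij : i ≤ j) (hi : i < per P σ e c A) :
    Disjoint (colF P σ e ((nxt P σ e c)^[i] A)) (colsF P σ e c A j) := by
  rw [Finset.disjoint_left]
  intro B hB hB'
  rw [mem_colF] at hB
  rw [mem_colsF] at hB'
  obtain ⟨h1, k, h2, h3, h4⟩ := hB'
  have := H.num_inj hA hi h3 hB.2 h4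
  omega

/-- The columns after number `j` are the column number `j + 1` and those after it. -/
theorem colsF_succ (A : Face) {j : ℕ} (hj : j + 1 < per P σ e c A) :
    colsF P σ e c A j =
      colF P σ e ((nxt P σ e c)^[j + 1] A) ∪ colsF P σ e c A (j + 1) := by
  ext B
  rw [Finset.mem_union, mem_colF, mem_colsF, mem_colsF]
  constructor
  · rintro ⟨h1, i, h2, h3, h4⟩
    rcases Nat.lt_or_ge (j + 1) i with h5 | h5
    · exact Or.inr ⟨h1, i, h5, h3, h4⟩
    · have : i = j + 1 := by omega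
      subst this
      exact Or.inl ⟨h1, h4⟩
  · rintro (⟨h1, h2⟩ | ⟨h1, i, h2, h3, h4⟩)
    · exact ⟨h1, j + 1, by omega, hj, h2⟩
    · exact ⟨h1, i, by omega, h3, h4⟩

theorem union_eq_symmDiff {α : Type*} [DecidableEq α] {s t : Finset α} (h : Disjoint s t) :
    s ∪ t = symmDiff s t := by
  ext a
  rw [Finset.mem_union, Finset.mem_symmDiff]
  rw [Finset.disjoint_left] at h
  constructor
  · rintro (h1 | h1)
    · exact Or.inl ⟨h1, h h1⟩
    · exact Or.inr ⟨h1, fun h2 => h h2 h1⟩
  · rintro (h1 | h1)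
    · exact Or.inl h1.1
    · exact Or.inr h1.1

/-- The curve number `j` is obtained from the curve number `j + 1` by pushing it across the
column number `j + 1`. -/
theorem IsField.cur_succ (H : IsField P σ e c) (hman : Man P) {A : Face}
    (hA : A ∈ XX P σ e c) {j : ℕ} (hj : j + 1 < per P σ e c A) :
    bdF P (colsF P σ e c A j) = symmDiff (bdF P (colF P σ e ((nxt P σ e c)^[j + 1] A)))
      (bdF P (colsF P σ e c A (j + 1))) := by
  rw [colsF_succ A hj, union_eq_symmDiff (H.disj_cols hA le_rfl hj), bdF_symmDiff hman]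

theorem colsF_last (A : Face) : colsF P σ e c A (per P σ e c A - 1) = ∅ := by
  rw [Finset.eq_empty_iff_forall_notMem]
  intro B hB
  rw [mem_colsF] at hB
  obtain ⟨-, i, h1, h2, -⟩ := hB
  omega

/-- The curve number 0 and the boundary of the column number 0 give the boundary of the disc. -/
theorem IsField.cur_zero (H : IsField P σ e c) (hman : Man P) (hsurf : SurfConn P)
    {F : Finset Face} (hF : IsMinF P (cutF P σ e c) F) {A : Face} (hA : A ∈ XX P σ e c)
    (hAF : A ∈ F) : bdF P F = symmDiff (bdF P (colF P σ e A)) (bdF P (colsF P σ e c A 0)) := by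
  have h1 := H.minF_eq hman hsurf hF hA hAF
  rw [union_eq_symmDiff (by simpa using H.disj_cols hA le_rfl (H.per_pos hA))] at h1
  rw [← h1, bdF_symmDiff hman]

theorem IsField.mem_colsF_self (H : IsField P σ e c) {A : Face} (hA : A ∈ XX P σ e c) {i j : ℕ}
    (h1 : j < i) (h2 : i < per P σ e c A) :
    (nxt P σ e c)^[i] A ∈ colsF P σ e c A j :=
  mem_colsF.2 ⟨(H.iter_mem hA i).1, i, h1, h2, EqvGen.refl _⟩

/-- The curves between the columns are circuits. -/
theorem IsField.ckt_cur (H : IsField P σ e c) (hman : Man P) (hsurf : SurfConn P)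
    {F : Finset Face} (hF : IsMinF P (cutF P σ e c) F) {A : Face} (hA : A ∈ XX P σ e c)
    {s : Face × Dir} (hs : s ∈ sideF P) (hsA : s.1 ∈ colF P σ e A) (hsF : (nu P s).1 ∉ F)
    (hAF : A ∈ F) {j : ℕ} (hj : j + 1 < per P σ e c A) :
    Ckt (bdF P (colsF P σ e c A j)) := by
  have hsub := H.colsF_sub hman hF hA hAF j
  have hsF' : s.1 ∈ F := (H.sat_minF hman hF).2 _ hAF _ (mem_colF.1 hsA).2
  refine hF.ckt_of_two c (fun ε hε => H.diag_cutF hε) (bdF_subset _) (evenSet_bdF hman _) ?_
    (cl_bdF hman hsub) (not_diag_XX (H.iter_mem hA j))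
    (not_diag_XX (H.iter_mem hA (per P σ e c A - 1))) (fun ε hε => H.mem_cur hman hA hε)
    (c0 := eg s.1 s.2) ?_ ?_
  · refine bdF_ne_empty hman hsurf (hsub.trans hF.sub)
      ⟨_, H.mem_colsF_self hA (Nat.lt_succ_self j) hj⟩ ?_
    intro h
    rw [h] at hsub
    exact hF.ne_univ (Finset.Subset.antisymm hF.sub hsub)
  · rw [mem_bdF hman _ hs]
    exact fun h => hsF (h.1 hsF')
  · rw [mem_bdF hman _ hs, not_not]
    refine ⟨fun h => ?_, fun h => absurd (hsub h) hsF⟩
    exfalso
    have := H.disj_cols hA (Nat.zero_le j) (H.per_pos hA)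
    rw [Finset.disjoint_left] at this
    exact this hsA h

/-- The boundaries of the columns except the first are circuits. -/
theorem IsField.ckt_col (H : IsField P σ e c) (hman : Man P) (hsurf : SurfConn P)
    {F : Finset Face} (hF : IsMinF P (cutF P σ e c) F) {A : Face} (hA : A ∈ XX P σ e c)
    {s : Face × Dir} (hs : s ∈ sideF P) (hsA : s.1 ∈ colF P σ e A) (hsF : (nu P s).1 ∉ F)
    (hAF : A ∈ F) {i : ℕ} (hi : 0 < i) (hip : i < per P σ e c A) :
    Ckt (bdF P (colF P σ e ((nxt P σ e c)^[i] A))) := by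
  have hsub := H.colF_sub hman hF hA hAF i
  have hsF' : s.1 ∈ F := (H.sat_minF hman hF).2 _ hAF _ (mem_colF.1 hsA).2
  refine hF.ckt_of_two c (fun ε hε => H.diag_cutF hε) (bdF_subset _) (evenSet_bdF hman _) ?_
    (cl_bdF hman hsub) (not_diag_XX (H.iter_mem hA i))
    (not_diag_XX (H.iter_mem hA (i - 1))) (fun ε hε => H.mem_bdcol hman hA hi hε)
    (c0 := eg s.1 s.2) ?_ ?_
  · refine bdF_ne_empty hman hsurf (hsub.trans hF.sub)
      ⟨(nxt P σ e c)^[i] A, mem_colF.2 ⟨(H.iter_mem hA i).1, EqvGen.refl _⟩⟩ ?_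
    intro h
    rw [h] at hsub
    exact hF.ne_univ (Finset.Subset.antisymm hF.sub hsub)
  · rw [mem_bdF hman _ hs]
    exact fun h => hsF (h.1 hsF')
  · rw [mem_bdF hman _ hs, not_not]
    refine ⟨fun h => ?_, fun h => absurd (hsub h) hsF⟩
    exfalso
    have h1 := H.num_inj hA (H.per_pos hA) hip (mem_colF.1 hsA).2 (mem_colF.1 h).2
    omega

end Pool.Agent.Helper84.LD
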