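import Pool.Agent.Helper14.LD.Comp

/-!
# The curves between the columns, counted from the other end (project LD, MP_409f7f_co)
-/

namespace Pool.Agent.Helper84.LD

open Pool.Agent.Helper17.UF Pool.Agent.Helper16.LD Relation

variable {P : Finset Cube} {σ : Bool} {e : Face → Dir} {c : Cube → Bool}

open Classical in
/-- The faces of the columns with the numbers `1, ..., j + 1`. -/
noncomputable def colsT (P : Finset Cube) (σ : Bool) (e : Face → Dir) (c : Cube → Bool)
    (A : Face) (j : ℕ) : Finset Face :=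
  (faceF P).filter (fun B => ∃ i, 0 < i ∧ i ≤ j + 1 ∧ SameCol P σ e ((nxt P σ e c)^[i] A) B)

theorem mem_colsT {A B : Face} {j : ℕ} : B ∈ colsT P σ e c A j ↔
    IsFace P B ∧ ∃ i, 0 < i ∧ i ≤ j + 1 ∧ SameCol P σ e ((nxt P σ e c)^[i] A) B := by
  classical
  unfold colsT
  rw [Finset.mem_filter, mem_faceF]

theorem sat_colsT (A : Face) (j : ℕ) : Sat P σ e (colsT P σ e c A j) := by
  refine ⟨fun B hB => mem_faceF.2 (mem_colsT.1 hB).1, ?_⟩
  intro B hB D hBD
  rw [mem_colsT] at hB ⊢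
  obtain ⟨h1, i, h2, h3, h4⟩ := hB
  exact ⟨hBD.isFace.1 h1, i, h2, h3, h4.trans _ _ _ hBD⟩

theorem IsField.colsT_sub (H : IsField P σ e c) (hman : Man P) {F : Finset Face}
    (hF : IsMinF P (cutF P σ e c) F) {A : Face} (hA : A ∈ XX P σ e c) (hAF : A ∈ F) (j : ℕ) :
    colsT P σ e c A j ⊆ F := by
  intro B hB
  rw [mem_colsT] at hB
  obtain ⟨h1, i, h2, h3, h4⟩ := hB
  exact (H.sat_minF hman hF).2 _ (H.iter_minF hman hF hA hAF i) _ h4

theorem IsField.disj_colsT (H : IsField P σ e c) {A : Face} (hA : A ∈ XX P σ e c) {j i : ℕ}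
    (hj : j + 1 < per P σ e c A) (hi : i < per P σ e c A) (hij : i = 0 ∨ j + 1 < i) :
    Disjoint (colF P σ e ((nxt P σ e c)^[i] A)) (colsT P σ e c A j) := by
  rw [Finset.disjoint_left]
  intro B hB hB'
  rw [mem_colF] at hB
  rw [mem_colsT] at hB'
  obtain ⟨h1, k, h2, h3, h4⟩ := hB'
  have := H.num_inj hA hi (by omega) hB.2 h4
  omega

/-- The face `nxt^[i] A` lies in the first columns iff its number does. -/
theorem IsField.mem_colsT_iff (H : IsField P σ e c) {A : Face} (hA : A ∈ XX P σ e c) {i j : ℕ}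
    (hj : j + 1 < per P σ e c A) (hi : i < per P σ e c A) {B : Face}
    (hB : SameCol P σ e ((nxt P σ e c)^[i] A) B) :
    B ∈ colsT P σ e c A j ↔ 0 < i ∧ i ≤ j + 1 := by
  rw [mem_colsT]
  constructor
  · rintro ⟨h1, k, h2, h3, h4⟩
    have := H.num_inj hA hi (by omega) hB h4
    omega
  · rintro ⟨h1, h2⟩
    exact ⟨hB.isFace.1 (H.iter_mem hA i).1, i, h1, h2, hB⟩

/-- The edges of the curve number `j`. -/
theorem IsField.mem_curT (H : IsField P σ e c) (hman : Man P) {A : Face}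
    (hA : A ∈ XX P σ e c) {j : ℕ} (hj : j + 1 < per P σ e c A) {ε : Sym2 Cube}
    (hε : ε ∈ bdF P (colsT P σ e c A j)) :
    ε ∈ cutF P σ e c ∨ ε = edg σ e A Hd.E ∨
      ε = edg σ e ((nxt P σ e c)^[j + 1] A) Hd.E := by
  rcases H.bd_sat hman (sat_colsT A j) hε with h1 | ⟨B, h1, h2, h3⟩
  · exact Or.inl h1
  · right
    rw [mem_colsT, mem_colsT] at h3
    by_cases h4 : ∃ i, 0 < i ∧ i ≤ j + 1 ∧ SameCol P σ e ((nxt P σ e c)^[i] A) B
    · right
      obtain ⟨i, h5, h6, h7⟩ := h4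
      have h8 : (nxt P σ e c)^[i] A = B := H.uniq_XX (H.iter_mem hA i) h1 h7
      have h9 : i = j + 1 := by
        by_contra h10
        apply h3
        refine ⟨fun _ => ⟨isFace_nbr h1.1, i + 1, by omega, by omega, ?_⟩,
          fun _ => ⟨h1.1, i, h5, h6, h7⟩⟩
        rw [← h8]
        exact nb_XX H hA i
      rw [h2, ← h8, h9]
    · left
      have h5 : ∃ i, 0 < i ∧ i ≤ j + 1 ∧
          SameCol P σ e ((nxt P σ e c)^[i] A) (nb P σ e B Hd.E) := by
        by_contra h6
        apply h3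
        constructor
        · rintro ⟨-, h7⟩
          exact absurd h7 h4
        · rintro ⟨-, h7⟩
          exact absurd h7 h6
      obtain ⟨i, h6, h7, h8⟩ := h5
      have h9 := H.num_prev hA h6 h1 h8
      have h10 : i - 1 = 0 := by
        by_contra h11
        apply h4
        refine ⟨i - 1, by omega, by omega, ?_⟩
        rw [h9]
        exact EqvGen.refl _
      rw [h10] at h9
      rw [h2, ← h9]
      rfl

/-- The crossing edge of the column number `i` lies on the curve number `j` iff `i = 0` or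
`i = j + 1`. -/
theorem IsField.cross_mem (H : IsField P σ e c) (hman : Man P) {A : Face}
    (hA : A ∈ XX P σ e c) {i j : ℕ} (hj : j + 1 < per P σ e c A) (hi : i < per P σ e c A) :
    edg σ e ((nxt P σ e c)^[i] A) Hd.E ∈ bdF P (colsT P σ e c A j) ↔ i = 0 ∨ i = j + 1 := by
  have hB := H.iter_mem hA i
  have hs : ((nxt P σ e c)^[i] A, dA σ e ((nxt P σ e c)^[i] A) Hd.E) ∈ sideF P :=
    mem_sideF.2 ⟨hB.1, perp_dirH σ _ _ (H.perp _ hB.1) Hd.E⟩
  have h1 := mem_bdF hman (colsT P σ e c A j) hs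
  simp only at h1
  rw [eg_eq_edg (H.perp _ hB.1) Hd.E] at h1
  rw [h1]
  have h2 : (nu P ((nxt P σ e c)^[i] A, dA σ e ((nxt P σ e c)^[i] A) Hd.E)).1 =
      nb P σ e ((nxt P σ e c)^[i] A) Hd.E := rfl
  rw [h2]
  have h3 := H.mem_colsT_iff hA hj hi (EqvGen.refl _)
  rw [h3]
  by_cases h4 : i + 1 < per P σ e c A
  · rw [H.mem_colsT_iff hA hj h4 (nb_XX H hA i)]
    omega
  · have h5 : i + 1 = per P σ e c A := by omega
    have h6 := nb_XX H hA i
    rw [h5, iter_per] at h6
    rw [H.mem_colsT_iff hA hj (H.per_pos hA) (i := 0) h6]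
    omega

theorem colsT_zero (A : Face) : colsT P σ e c A 0 = colF P σ e (nxt P σ e c A) := by
  ext B
  rw [mem_colsT, mem_colF]
  constructor
  · rintro ⟨h1, i, h2, h3, h4⟩
    have : i = 1 := by omega
    subst this
    exact ⟨h1, h4⟩
  · rintro ⟨h1, h2⟩
    exact ⟨h1, 1, by omega, by omega, h2⟩

theorem colsT_succ (A : Face) (j : ℕ) : colsT P σ e c A (j + 1) =
    colF P σ e ((nxt P σ e c)^[j + 2] A) ∪ colsT P σ e c A j := by
  ext B
  rw [Finset.mem_union, mem_colF, mem_colsT, mem_colsT]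
  constructor
  · rintro ⟨h1, i, h2, h3, h4⟩
    rcases Nat.lt_or_ge (j + 1) i with h5 | h5
    · have : i = j + 2 := by omega
      subst this
      exact Or.inl ⟨h1, h4⟩
    · exact Or.inr ⟨h1, i, h2, h5, h4⟩
  · rintro (⟨h1, h2⟩ | ⟨h1, i, h2, h3, h4⟩)
    · exact ⟨h1, j + 2, by omega, by omega, h2⟩
    · exact ⟨h1, i, h2, by omega, h4⟩

theorem IsField.curT_succ (H : IsField P σ e c) (hman : Man P) {A : Face}
    (hA : A ∈ XX P σ e c) {j : ℕ} (hj : j + 2 < per P σ e c A) :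
    bdF P (colsT P σ e c A (j + 1)) = symmDiff (bdF P (colsT P σ e c A j))
      (bdF P (colF P σ e ((nxt P σ e c)^[j + 2] A))) := by
  rw [colsT_succ A j, union_eq_symmDiff (H.disj_colsT hA (by omega) hj (by omega)),
    bdF_symmDiff hman, symmDiff_comm]

/-- The last curve and the boundary of the column number 0 give the boundary of the disc. -/
theorem IsField.curT_last (H : IsField P σ e c) (hman : Man P) (hsurf : SurfConn P)
    {F : Finset Face} (hF : IsMinF P (cutF P σ e c) F) {A : Face} (hA : A ∈ XX P σ e c)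
    (hAF : A ∈ F) {j : ℕ} (hj : j + 2 = per P σ e c A) :
    bdF P F = symmDiff (bdF P (colsT P σ e c A j)) (bdF P (colF P σ e A)) := by
  have h1 := H.minF_eq hman hsurf hF hA hAF
  have h2 : colF P σ e A ∪ colsF P σ e c A 0 = colF P σ e A ∪ colsT P σ e c A j := by
    ext B
    rw [Finset.mem_union, Finset.mem_union, mem_colsF, mem_colsT]
    constructor
    · rintro (h3 | ⟨h3, i, h4, h5, h6⟩)
      · exact Or.inl h3
      · exact Or.inr ⟨h3, i, h4, by omega, h6⟩
    · rintro (h3 | ⟨h3, i, h4, h5, h6⟩)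
      · exact Or.inl h3
      · exact Or.inr ⟨h3, i, h4, by omega, h6⟩
  rw [h2, union_eq_symmDiff (by
    simpa using H.disj_colsT hA (i := 0) (by omega) (H.per_pos hA) (Or.inl rfl))] at h1
  rw [← h1, bdF_symmDiff hman, symmDiff_comm]

/-- The curves between the columns are circuits. -/
theorem IsField.ckt_curT (H : IsField P σ e c) (hman : Man P) (hsurf : SurfConn P)
    {F : Finset Face} (hF : IsMinF P (cutF P σ e c) F) {A : Face} (hA : A ∈ XX P σ e c)
    {s : Face × Dir} (hs : s ∈ sideF P) (hsA : s.1 ∈ colF P σ e A) (hsF : (nu P s).1 ∉ F)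
    (hAF : A ∈ F) {j : ℕ} (hj : j + 1 < per P σ e c A) :
    Ckt (bdF P (colsT P σ e c A j)) ∧ Cl P F (bdF P (colsT P σ e c A j)) ∧
      eg s.1 s.2 ∉ bdF P (colsT P σ e c A j) ∧ eg s.1 s.2 ∈ bdF P F := by
  have hsub := H.colsT_sub hman hF hA hAF j
  have hsF' : s.1 ∈ F := (H.sat_minF hman hF).2 _ hAF _ (mem_colF.1 hsA).2
  have hcl : Cl P F (bdF P (colsT P σ e c A j)) := cl_bdF hman hsub
  have h1 : eg s.1 s.2 ∈ bdF P F := by
    rw [mem_bdF hman _ hs]
    exact fun h => hsF (h.1 hsF')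
  have h2 : eg s.1 s.2 ∉ bdF P (colsT P σ e c A j) := by
    rw [mem_bdF hman _ hs, not_not]
    refine ⟨fun h => ?_, fun h => absurd (hsub h) hsF⟩
    exfalso
    have := H.disj_colsT hA hj (H.per_pos hA) (Or.inl rfl)
    rw [Finset.disjoint_left] at this
    exact this hsA h
  refine ⟨hF.ckt_of_two c (fun ε hε => H.diag_cutF hε) (bdF_subset _) (evenSet_bdF hman _) ?_
    hcl (not_diag_XX hA) (not_diag_XX (H.iter_mem hA (j + 1)))
    (fun ε hε => H.mem_curT hman hA hj hε) h1 h2, hcl, h2, h1⟩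
  refine bdF_ne_empty hman hsurf (hsub.trans hF.sub)
    ⟨(nxt P σ e c)^[1] A, (H.mem_colsT_iff hA hj (by omega) (EqvGen.refl _)).2
      ⟨by omega, by omega⟩⟩ ?_
  intro h
  rw [h] at hsub
  exact hF.ne_univ (Finset.Subset.antisymm hF.sub hsub)

/-- The boundary edge of the disc at the column number 0 does not lie on the other columns. -/
theorem IsField.c0_col (H : IsField P σ e c) (hman : Man P)
    {F : Finset Face} (hF : IsMinF P (cutF P σ e c) F) {A : Face} (hA : A ∈ XX P σ e c)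
    {s : Face × Dir} (hs : s ∈ sideF P) (hsA : s.1 ∈ colF P σ e A) (hsF : (nu P s).1 ∉ F)
    (hAF : A ∈ F) {i : ℕ} (hi : i < per P σ e c A) :
    eg s.1 s.2 ∈ bdF P (colF P σ e ((nxt P σ e c)^[i] A)) ↔ i = 0 := by
  have hsub := H.colF_sub hman hF hA hAF i
  have h1 : (nu P s).1 ∉ colF P σ e ((nxt P σ e c)^[i] A) := fun h => hsF (hsub h)
  have h2 : s.1 ∈ colF P σ e ((nxt P σ e c)^[i] A) ↔ i = 0 := by
    constructor
    · intro h
      exact (H.num_inj hA (H.per_pos hA) hi (mem_colF.1 hsA).2 (mem_colF.1 h).2).symm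
    · rintro rfl
      exact hsA
  rw [mem_bdF hman _ hs, h2]
  tauto

end Pool.Agent.Helper84.LD
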