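import Pool.Agent.Helper14.LD.Ckt

/-!
# A smallest disc bounded by a circuit of given edges (project LD, MP_409f7f_co)
-/

namespace Pool.Agent.Helper16.LD

open Pool.Agent.Helper17.UF

variable {P : Finset Cube}

theorem bdF_empty : bdF P ∅ = ∅ := by
  unfold bdF
  simp

theorem bdF_univ : bdF P (faceF P) = ∅ := by
  unfold bdF
  rw [Finset.image_eq_empty, Finset.filter_eq_empty_iff]
  rintro s hs ⟨-, h⟩
  exact h (mem_faceF.2 (mem_sideF.1 (nu_mem hs)).1)

theorem bdF_compl (hman : Man P) {X : Finset Face} (hX : X ⊆ faceF P) :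
    bdF P (faceF P \ X) = bdF P X := by
  have h1 : faceF P \ X = symmDiff (faceF P) X := by
    ext A
    rw [Finset.mem_sdiff, Finset.mem_symmDiff]
    constructor
    · intro h2; exact Or.inl h2
    · rintro (h2 | h2)
      · exact h2
      · exact absurd (hX h2.1) h2.2
  rw [h1, bdF_symmDiff hman, bdF_univ]
  ext e
  rw [Finset.mem_symmDiff]
  simp

theorem bdF_ne_empty (hman : Man P) (hsurf : SurfConn P) {X : Finset Face} (hX : X ⊆ faceF P)
    (hne : X.Nonempty) (hne' : X ≠ faceF P) : (bdF P X).Nonempty := by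
  rw [Finset.nonempty_iff_ne_empty]
  intro h
  have h1 : bdF P ∅ = bdF P X := by rw [h, bdF_empty]
  rcases bdF_inj hman hsurf (Finset.empty_subset _) hX h1 with h2 | h2
  · rw [h2] at hne
    exact Finset.not_nonempty_empty hne
  · rw [Finset.sdiff_empty] at h2
    exact hne' h2

/-- Every edge of `Z` has a face in `F`. -/
def Cl (P : Finset Cube) (F : Finset Face) (Z : Finset (Sym2 Cube)) : Prop :=
  ∀ s ∈ sideF P, eg s.1 s.2 ∈ Z → s.1 ∈ F ∨ (nu P s).1 ∈ F

theorem Cl.mono {F : Finset Face} {Z W : Finset (Sym2 Cube)} (h : Cl P F Z) (hWZ : W ⊆ Z) :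
    Cl P F W := fun s hs he => h s hs (hWZ he)

theorem cl_bdF (hman : Man P) {F X : Finset Face} (hXF : X ⊆ F) : Cl P F (bdF P X) := by
  intro s hs he
  rw [mem_bdF hman X hs] at he
  by_cases h1 : s.1 ∈ X
  · exact Or.inl (hXF h1)
  · by_cases h2 : (nu P s).1 ∈ X
    · exact Or.inr (hXF h2)
    · exact absurd ⟨fun h => absurd h h1, fun h => absurd h h2⟩ he

/-- `F` is a disc bounded by a circuit of edges of `M` such that no other nonempty even set of
edges of `M` lies in the closed disc. -/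
structure IsMinF (P : Finset Cube) (M : Finset (Sym2 Cube)) (F : Finset Face) : Prop where
  sub : F ⊆ faceF P
  ne : F.Nonempty
  ne_univ : F ≠ faceF P
  bd : bdF P F ⊆ M
  ckt : Ckt (bdF P F)
  eq : ∀ Z ⊆ M, EvenSet Z → Z.Nonempty → Cl P F Z → Z = bdF P F

theorem exists_minF (hman : Man P) (hsurf : SurfConn P)
    (heuler : (vertF P).card + (faceF P).card = (edgeF P).card + 2)
    {M : Finset (Sym2 Cube)} (hM : M ⊆ edgeF P) {K : Finset Face} (hK : K ⊆ faceF P)
    (hKne : K.Nonempty) (hKne' : K ≠ faceF P) (hKM : bdF P K ⊆ M) :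
    ∃ F, IsMinF P M F := by
  classical
  let S : Finset (Finset Face) := (faceF P).powerset.filter
    (fun F => F.Nonempty ∧ F ≠ faceF P ∧ bdF P F ⊆ M ∧ Ckt (bdF P F))
  have hcand : ∀ Z, Z ⊆ M → Ckt Z → ∃ X, X ∈ S ∧ bdF P X = Z := by
    intro Z hZM hZ
    obtain ⟨X, hX, hbd⟩ := even_is_bdF hman hsurf heuler (hZM.trans hM) hZ.2.1
    refine ⟨X, Finset.mem_filter.2 ⟨Finset.mem_powerset.2 hX, ?_, ?_, ?_, ?_⟩, hbd⟩
    · rw [Finset.nonempty_iff_ne_empty]
      rintro rfl
      rw [bdF_empty] at hbd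
      rw [← hbd] at hZ
      exact Finset.not_nonempty_empty hZ.1
    · rintro rfl
      rw [bdF_univ] at hbd
      rw [← hbd] at hZ
      exact Finset.not_nonempty_empty hZ.1
    · rw [hbd]; exact hZM
    · rw [hbd]; exact hZ
  have hSne : S.Nonempty := by
    obtain ⟨Z0, hZ0, hc⟩ := exists_ckt (bdF_ne_empty hman hsurf hK hKne hKne')
      (evenSet_bdF hman K)
    obtain ⟨X, hX, -⟩ := hcand Z0 (hZ0.trans hKM) hc
    exact ⟨X, hX⟩
  obtain ⟨F, hF, hmin⟩ := S.exists_min_image Finset.card hSne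
  have hF' := hF
  rw [Finset.mem_filter, Finset.mem_powerset] at hF'
  obtain ⟨hFs, hFne, hFne', hFM, hFc⟩ := hF'
  have hfew : ∀ X, X ⊆ F → X.Nonempty → bdF P X ⊆ M → Ckt (bdF P X) → X = F := by
    intro X hXF hXne hXM hXc
    refine Finset.eq_of_subset_of_card_le hXF (hmin X ?_)
    refine Finset.mem_filter.2 ⟨Finset.mem_powerset.2 (hXF.trans hFs), hXne, ?_, hXM, hXc⟩
    rintro rfl
    exact hFne' (Finset.Subset.antisymm hFs hXF)
  have key : ∀ Z, Z ⊆ M → Ckt Z → Cl P F Z → Z = bdF P F := by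
    intro Z hZM hZc hcl
    obtain ⟨X, hX, rfl⟩ := hcand Z hZM hZc
    rw [Finset.mem_filter, Finset.mem_powerset] at hX
    obtain ⟨hXs, hXne, hXne', hXM, hXc⟩ := hX
    have hY : bdF P (X \ F) ⊆ bdF P F := by
      intro e he
      obtain ⟨s, hs, rfl⟩ := mem_edgeF.1 (bdF_subset _ he)
      rw [mem_bdF hman _ hs] at he ⊢
      have h1 := hcl s hs
      rw [mem_bdF hman _ hs] at h1
      rw [Finset.mem_sdiff, Finset.mem_sdiff] at he
      tauto
    have hYs : X \ F ⊆ faceF P := Finset.sdiff_subset.trans hXs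
    by_cases hYe : (bdF P (X \ F)).Nonempty
    · have h1 := hFc.2.2 _ hY hYe (evenSet_bdF hman _)
      rcases bdF_inj hman hsurf hFs hYs h1.symm with h2 | h2
      · exfalso
        obtain ⟨A, hA⟩ := hFne
        have h3 : A ∈ X \ F := by rw [h2]; exact hA
        exact (Finset.mem_sdiff.1 h3).2 hA
      · have h3 : faceF P \ X = F := by
          refine hfew _ ?_ ?_ ?_ ?_
          · intro A hA
            rw [Finset.mem_sdiff] at hA
            by_contra hAF
            have : A ∈ X \ F := by rw [h2]; exact Finset.mem_sdiff.2 ⟨hA.1, hAF⟩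
            exact hA.2 (Finset.mem_sdiff.1 this).1
          · rw [Finset.nonempty_iff_ne_empty]
            intro h4
            rw [Finset.sdiff_eq_empty_iff_subset] at h4
            exact hXne' (Finset.Subset.antisymm hXs h4)
          · rw [bdF_compl hman hXs]; exact hXM
          · rw [bdF_compl hman hXs]; exact hXc
        rw [← h3, bdF_compl hman hXs]
    · rw [Finset.not_nonempty_iff_eq_empty] at hYe
      have h1 : X \ F = ∅ := by
        by_contra h2
        have h3 : (X \ F).Nonempty := Finset.nonempty_iff_ne_empty.2 h2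
        have h4 : X \ F ≠ faceF P := by
          intro h5
          obtain ⟨A, hA⟩ := hFne
          have h6 : A ∈ X \ F := by rw [h5]; exact hFs hA
          exact (Finset.mem_sdiff.1 h6).2 hA
        have h5 := bdF_ne_empty hman hsurf hYs h3 h4
        rw [hYe] at h5
        exact Finset.not_nonempty_empty h5
      rw [Finset.sdiff_eq_empty_iff_subset] at h1
      rw [hfew X h1 hXne hXM hXc]
  refine ⟨F, hFs, hFne, hFne', hFM, hFc, ?_⟩
  intro Z hZM hZ hZne hcl
  obtain ⟨Z1, hZ1, hZ1c⟩ := exists_ckt hZne hZ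
  have h1 := key Z1 (hZ1.trans hZM) hZ1c (hcl.mono hZ1)
  rw [h1] at hZ1
  by_contra hne
  have h2 : (Z \ bdF P F).Nonempty := by
    rw [Finset.nonempty_iff_ne_empty]
    intro h3
    rw [Finset.sdiff_eq_empty_iff_subset] at h3
    exact hne (Finset.Subset.antisymm h3 hZ1)
  obtain ⟨Z2, hZ2, hZ2c⟩ := exists_ckt h2 (hZ.sdiff (evenSet_bdF hman F) hZ1)
  have h3 := key Z2 ((hZ2.trans Finset.sdiff_subset).trans hZM) hZ2c
    (hcl.mono (hZ2.trans Finset.sdiff_subset))
  obtain ⟨a, ha⟩ := hZ2c.1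
  have h4 := Finset.mem_sdiff.1 (hZ2 ha)
  rw [h3] at ha
  exact h4.2 ha

/-- A nonempty set of faces in the disc that is bounded by edges of `M` is the disc. -/
theorem IsMinF.eq_of_sub {M : Finset (Sym2 Cube)} {F K : Finset Face} (h : IsMinF P M F)
    (hman : Man P) (hsurf : SurfConn P) (hK : K ⊆ F) (hne : K.Nonempty) (hKM : bdF P K ⊆ M) :
    K = F := by
  have hKs : K ⊆ faceF P := hK.trans h.sub
  have hKu : K ≠ faceF P := by
    rintro rfl
    exact h.ne_univ (Finset.Subset.antisymm h.sub hK)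
  have h1 := h.eq _ hKM (evenSet_bdF hman K) (bdF_ne_empty hman hsurf hKs hne hKu)
    (cl_bdF hman hK)
  rcases bdF_inj hman hsurf h.sub hKs h1.symm with h2 | h2
  · exact h2
  · exfalso
    obtain ⟨A, hA⟩ := hne
    have h3 := hK hA
    rw [h2] at hA
    exact (Finset.mem_sdiff.1 hA).2 h3

/-- An even set in the closed disc that consists of edges of `M` (not all of the boundary) and of
at most two edges with differently coloured ends is a circuit. -/
theorem IsMinF.ckt_of_two {M : Finset (Sym2 Cube)} {F : Finset Face} (h : IsMinF P M F)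
    (c : Cube → Bool) (hMc : ∀ e ∈ M, (Sym2.map c e).IsDiag)
    {Z : Finset (Sym2 Cube)} (hZE : Z ⊆ edgeF P) (hZ : EvenSet Z) (hne : Z.Nonempty)
    (hcl : Cl P F Z) {a b : Sym2 Cube} (ha : ¬ (Sym2.map c a).IsDiag)
    (hb : ¬ (Sym2.map c b).IsDiag)
    (hZM : ∀ e ∈ Z, e ∈ M ∨ e = a ∨ e = b) {c0 : Sym2 Cube} (hc0 : c0 ∈ bdF P F)
    (hc0Z : c0 ∉ Z) : Ckt Z := by
  classical
  -- a nonempty even subset contains an edge that is not in M
  have h1 : ∀ W ⊆ Z, W.Nonempty → EvenSet W → ¬ W ⊆ M := by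
    intro W hWZ hWne hWe hWM
    have := h.eq W hWM hWe hWne (hcl.mono hWZ)
    rw [← this] at hc0
    exact hc0Z (hWZ hc0)
  -- it contains both
  have h2 : ∀ W ⊆ Z, W.Nonempty → EvenSet W → a ∈ W ∧ b ∈ W := by
    intro W hWZ hWne hWe
    have h3 := h1 W hWZ hWne hWe
    have h4 := hWe.bichromatic (fun e he => edgeF_not_diag e (hZE (hWZ he))) c
    have h5 : W.filter (fun e => ¬ (Sym2.map c e).IsDiag) = W.filter (fun e => e = a ∨ e = b) := by
      refine Finset.filter_congr ?_
      intro e he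
      constructor
      · intro h6
        rcases hZM e (hWZ he) with h7 | h7
        · exact absurd (hMc e h7) h6
        · exact h7
      · rintro (rfl | rfl)
        · exact ha
        · exact hb
    rw [h5] at h4
    have h6 : a ∈ W ∨ b ∈ W := by
      rw [Finset.not_subset] at h3
      obtain ⟨x, hx, hxM⟩ := h3
      rcases hZM x (hWZ hx) with h7 | rfl | rfl
      · exact absurd h7 hxM
      · exact Or.inl hx
      · exact Or.inr hx
    by_contra hn
    have h7 : (W.filter (fun e => e = a ∨ e = b)).card = 1 := by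
      rw [Finset.card_eq_one]
      by_cases h8 : a ∈ W
      · have h9 : b ∉ W := fun h => hn ⟨h8, h⟩
        refine ⟨a, ?_⟩
        ext x
        rw [Finset.mem_filter, Finset.mem_singleton]
        constructor
        · rintro ⟨h10, rfl | rfl⟩
          · rfl
          · exact absurd h10 h9
        · rintro rfl
          exact ⟨h8, Or.inl rfl⟩
      · have h9 : b ∈ W := h6.resolve_left h8
        refine ⟨b, ?_⟩
        ext x
        rw [Finset.mem_filter, Finset.mem_singleton]
        constructor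
        · rintro ⟨h10, rfl | rfl⟩
          · exact absurd h10 h8
          · rfl
        · rintro rfl
          exact ⟨h9, Or.inr rfl⟩
    rw [h7] at h4
    exact absurd h4 (by decide)
  refine ⟨hne, hZ, ?_⟩
  intro W hWZ hWne hWe
  by_contra hW
  have h5 : (Z \ W).Nonempty := by
    rw [Finset.nonempty_iff_ne_empty]
    intro h3
    rw [Finset.sdiff_eq_empty_iff_subset] at h3
    exact hW (Finset.Subset.antisymm hWZ h3)
  have h6 := h2 W hWZ hWne hWe
  have h7 := h2 _ Finset.sdiff_subset h5 (hZ.sdiff hWe hWZ)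
  exact (Finset.mem_sdiff.1 h7.1).2 h6.1

end Pool.Agent.Helper16.LD
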